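import Pool.Agent.V11318.KhRProb

/-!
Random products of `2` and `3` almost surely do not form a Khintchin sequence, not even for
bounded functions.
-/

set_option autoImplicit false

namespace Pool.Agent.Results.MP_47485c_an.AlmostSurelyNot

open MeasureTheory Filter ProbabilityTheory
open scoped Topology ENNReal
open Pool.Agent.V11318.KhR

/-- The sequence of integers `(lam n)_{n ≥ 1}` is an `L^q`-Khintchin sequence: for every
`f ∈ L^q(𝕋)`, with `𝕋 = ℝ/ℤ` and Lebesgue measure, the averages `(1/N) ∑_{n=1}^N f(lam n x)`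
tend to the integral of `f` for almost every `x`. -/
def IsLpKhintchin (q : ℝ≥0∞) (lam : ℕ → ℕ) : Prop :=
  ∀ f : UnitAddCircle → ℝ, MemLp f q (volume : Measure UnitAddCircle) →
    ∀ᵐ x ∂(volume : Measure UnitAddCircle),
      Tendsto (fun N : ℕ => (1 / (N : ℝ)) * ∑ n ∈ Finset.Icc 1 N, f (lam n • x)) atTop
        (𝓝 (∫ y, f y ∂(volume : Measure UnitAddCircle)))

/-- Let `0 < p < 1` and let `w 0, w 1, ...` be independent random variables which are `2` with
probability `p` and `3` with probability `1 - p`. Almost surely the sequence of the products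
`w 0 * ... * w (n - 1)`, `n ≥ 1`, is not an `L^q`-Khintchin sequence for any `q` in `[1, ∞]`. -/
theorem result {Ω : Type*} [MeasurableSpace Ω] (P : Measure Ω) [IsProbabilityMeasure P]
    (p : ℝ) (hp0 : 0 < p) (hp1 : p < 1) (w : ℕ → Ω → ℕ) (hmeas : ∀ n, Measurable (w n))
    (hindep : iIndepFun w P) (h2 : ∀ n, P {ω | w n ω = 2} = ENNReal.ofReal p)
    (h3 : ∀ n, P {ω | w n ω = 3} = ENNReal.ofReal (1 - p)) :
    ∀ᵐ ω ∂P, ∀ q : ℝ≥0∞, 1 ≤ q →
      ¬ IsLpKhintchin q (fun n => ∏ i ∈ Finset.range n, w i ω) := by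
  have hb : Bits P (fun i ω => decide (w i ω = 2)) p := by
    refine ⟨hp0, hp1, fun i => ?_, ?_, fun i => ?_⟩
    · exact (Measurable.of_discrete (f := fun t : ℕ => decide (t = 2))).comp (hmeas i)
    · exact hindep.comp (fun _ t => decide (t = 2)) (fun _ => Measurable.of_discrete)
    · simpa using h2 i
  have hval : ∀ᵐ ω ∂P, ∀ i, w i ω = 2 ∨ w i ω = 3 := by
    rw [ae_all_iff]
    intro i
    have hm2 : MeasurableSet {ω | w i ω = 2} := hmeas i (measurableSet_singleton 2)
    have hm3 : MeasurableSet {ω | w i ω = 3} := hmeas i (measurableSet_singleton 3)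
    have hdisj : Disjoint {ω | w i ω = 2} {ω | w i ω = 3} := by
      rw [Set.disjoint_left]
      intro ω h h'
      simp only [Set.mem_ofPred_eq] at h h'
      omega
    have h1 : P ({ω | w i ω = 2} ∪ {ω | w i ω = 3}) = 1 := by
      rw [measure_union hdisj hm3, h2, h3, ← ENNReal.ofReal_add hp0.le (by linarith)]
      simp
    have h4 := (prob_compl_eq_zero_iff (hm2.union hm3)).2 h1
    rw [ae_iff]
    refine measure_mono_null (fun ω hω => ?_) h4
    simpa using hω
  have hwan : ∀ᵐ ω ∂P, ∀ k N0 Q : ℕ, ∃ W : ℝ, ∃ S : ℕ, ∀ q < Q, ∃ N, N0 ≤ N ∧ 0 < N ∧ N ≤ S ∧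
      ∃ T : Finset ℕ, T ⊆ Finset.Icc 1 N ∧
        (∀ n ∈ T, ⌊(sb p (fun j => decide (w (0 + j) ω = 2)) n) / W⌋ = (q : ℤ)) ∧
        (1 - 1 / ((k : ℝ) + 1)) * N ≤ T.card := by
    simp only [ae_all_iff]
    intro k N0 Q
    exact hb.wander_aux k N0 Q
  filter_upwards [hval, hwan] with ω hv hw q hq hK
  have hcnt : ∀ n, sb p (fun j => decide (w (0 + j) ω = 2)) n =
      (cnt2 (fun i => w i ω) n : ℝ) - p * n := by
    intro n
    unfold sb cb cnt2
    rw [Finset.card_filter, Finset.sum_sub_distrib]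
    push_cast
    simp [mul_comm]
  have hW : Wander p (fun i => w i ω) := by
    intro ε hε N0 Q _
    obtain ⟨k, hk⟩ := exists_nat_one_div_lt hε
    obtain ⟨W, S, hS⟩ := hw k N0 Q
    refine ⟨W, S, fun q hq => ?_⟩
    obtain ⟨N, h4, h5, h6, T, h7, h8, h9⟩ := hS q hq
    refine ⟨N, h4, h5, h6, T, h7, fun n hn => ?_, ?_⟩
    · rw [← hcnt]; exact h8 n hn
    · refine le_trans ?_ h9
      apply mul_le_mul_of_nonneg_right _ (Nat.cast_nonneg N)
      linarith
  obtain ⟨U, hUm, hU⟩ := diverges_of_wander (w := fun i => w i ω) hv hW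
  refine hU (hK _ ?_)
  exact memLp_indicator_const q hUm 1 (Or.inr (measure_ne_top _ _))

end Pool.Agent.Results.MP_47485c_an.AlmostSurelyNot
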